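import Pool.Agent.Lib.MP_688fd0_co.OSF.Iface

/-!
LINEGEN: a label `a` whose order in `Q` is divisible by the large prime `P` and which is not, up to inversion, the
square of a label.
-/

set_option autoImplicit false

namespace Pool.Agent.Lib.MP_688fd0_co.OSF

universe u v

/-- Some label has order divisible by `P`. -/
theorem linegen_exists {Q : Type u} [CommGroup Q] [Finite Q] {L : Type v} (q : L → Q) (P : ℕ)
    (hP : P.Prime) (hd : P ∣ Nat.card Q) (hc : Subgroup.closure (Set.range q) = ⊤) :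
    ∃ b : L, P ∣ orderOf (q b) := by
  by_contra! h
  have hcard : Nat.card Q ≠ 0 := Nat.card_pos.ne'
  obtain ⟨e, M, hM, hn⟩ := Nat.exists_eq_pow_mul_and_not_dvd hcard P hP.ne_one
  have hle : Subgroup.closure (Set.range q) ≤ (powMonoidHom M : Q →* Q).ker := by
    rw [Subgroup.closure_le]
    rintro _ ⟨b, rfl⟩
    have h1 : orderOf (q b) ∣ P ^ e * M := hn ▸ orderOf_dvd_natCard (q b)
    have h2 : Nat.Coprime (orderOf (q b)) (P ^ e) :=
      Nat.Coprime.pow_right _ ((Nat.Prime.coprime_iff_not_dvd hP).2 (h b)).symm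
    have h3 : orderOf (q b) ∣ M := h2.dvd_of_dvd_mul_left h1
    simpa [MonoidHom.mem_ker] using orderOf_dvd_iff_pow_eq_one.1 h3
  have := Fact.mk hP
  obtain ⟨x, hx⟩ := exists_prime_orderOf_dvd_card' P hd
  have hx2 : x ∈ (powMonoidHom M : Q →* Q).ker := hle (hc ▸ Subgroup.mem_top x)
  have hx3 : x ^ M = 1 := by simpa [MonoidHom.mem_ker] using hx2
  exact hM (hx ▸ orderOf_dvd_of_pow_eq_one hx3)

/-- LINEGEN for a function into a finite commutative group. -/
theorem linegen_fun {Q : Type u} [CommGroup Q] [Finite Q] {L : Type v} (q : L → Q) (P : ℕ)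
    (hfin : Finite L) (hP : P.Prime) (hd : P ∣ Nat.card Q)
    (hc : Subgroup.closure (Set.range q) = ⊤) (hbig : 2 ^ Nat.card L + 1 < P) :
    ∃ a : L, P ∣ orderOf (q a) ∧ ∀ s : L, q s ^ 2 ≠ q a ∧ q s ^ 2 ≠ (q a)⁻¹ := by
  by_contra! hcon
  obtain ⟨b, hb⟩ := linegen_exists q P hP hd hc
  have key : ∀ a : L, P ∣ orderOf (q a) →
      ∃ s : L, P ∣ orderOf (q s) ∧ (q s ^ 2 = q a ∨ q s ^ 2 = (q a)⁻¹) := by
    intro a ha
    obtain ⟨s, hs⟩ := hcon a ha
    have hs' : q s ^ 2 = q a ∨ q s ^ 2 = (q a)⁻¹ := by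
      by_cases h1 : q s ^ 2 = q a
      · exact Or.inl h1
      · exact Or.inr (hs h1)
    refine ⟨s, ha.trans ?_, hs'⟩
    rcases hs' with h1 | h1
    · rw [← h1]; exact orderOf_pow_dvd 2
    · rw [← orderOf_inv, ← h1]; exact orderOf_pow_dvd 2
  choose! f hf1 hf2 using key
  have it : ∀ i : ℕ, P ∣ orderOf (q (f^[i] b)) := by
    intro i
    induction i with
    | zero => exact hb
    | succ i ih => rw [Function.iterate_succ_apply']; exact hf1 _ ih
  have st : ∀ i j : ℕ, q (f^[i + j] b) ^ (2 ^ j) = q (f^[i] b) ∨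
      q (f^[i + j] b) ^ (2 ^ j) = (q (f^[i] b))⁻¹ := by
    intro i j
    induction j with
    | zero => left; simp
    | succ j ih =>
      have h2 := hf2 (f^[i + j] b) (it (i + j))
      rw [← add_assoc, Function.iterate_succ_apply', pow_succ', pow_mul]
      rcases h2 with h2 | h2
      · rw [h2]; exact ih
      · rw [h2, inv_pow]
        rcases ih with ih | ih
        · right; rw [ih]
        · left; rw [ih, inv_inv]
  have : ¬ Function.Injective (fun i : Fin (Nat.card L + 1) => f^[(i : ℕ)] b) := by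
    intro hinj
    have h1 := Nat.card_le_card_of_injective _ hinj
    simp at h1
  simp only [Function.Injective, not_forall] at this
  obtain ⟨i, j, hij, hne⟩ := this
  have main : ∀ i j : ℕ, i < j → j ≤ Nat.card L → f^[i] b = f^[j] b → False := by
    intro i j hlt hle heq
    obtain ⟨d, rfl⟩ : ∃ d, j = i + d := ⟨j - i, by omega⟩
    have hs := st i d
    rw [← heq] at hs
    have hd1 : 1 ≤ d := by omega
    have hpw : 2 ^ d ≤ 2 ^ Nat.card L := Nat.pow_le_pow_right (by norm_num) (by omega)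
    have hpos : 2 ≤ 2 ^ d := by
      calc 2 = 2 ^ 1 := by norm_num
        _ ≤ 2 ^ d := Nat.pow_le_pow_right (by norm_num) hd1
    rcases hs with hs | hs
    · have h1 : q (f^[i] b) ^ (2 ^ d - 1) = 1 := by
        have h2 : q (f^[i] b) ^ (2 ^ d - 1) * q (f^[i] b) = q (f^[i] b) := by
          rw [← pow_succ, Nat.sub_add_cancel (by omega)]; exact hs
        exact mul_eq_right.1 h2
      have h3 : P ∣ 2 ^ d - 1 := (it i).trans (orderOf_dvd_of_pow_eq_one h1)
      have h4 := Nat.le_of_dvd (by omega) h3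
      omega
    · have h1 : q (f^[i] b) ^ (2 ^ d + 1) = 1 := by
        rw [pow_succ, hs, inv_mul_cancel]
      have h3 : P ∣ 2 ^ d + 1 := (it i).trans (orderOf_dvd_of_pow_eq_one h1)
      have h4 := Nat.le_of_dvd (by omega) h3
      omega
  rcases lt_trichotomy (i : ℕ) (j : ℕ) with h | h | h
  · exact main i j h (by have := j.2; omega) hij
  · exact hne (Fin.ext h)
  · exact main j i h (by have := i.2; omega) hij.symm

theorem linegen : LinegenS.{u, v} := by
  intro Q _ _ L hfin q P hP hd hc hbig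
  exact linegen_fun q P hfin hP hd hc hbig

end Pool.Agent.Lib.MP_688fd0_co.OSF
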